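import Pool.Agent.H586.AF.D

/-! # Task AG-E3: the expansions in a basis of the Lie algebra -/

set_option autoImplicit false
set_option linter.unusedVariables false

open MeasureTheory Matrix Finset Filter Topology
open scoped Matrix.Norms.Frobenius

namespace Pool.Agent.H593.AG

open Pool.Agent.H586.AF (s12 s23 ex1 ex2 ex3 IH I1 I2 I3)
open Pool.Agent.H586.AF.GG

noncomputable section

variable {N L n : ℕ} {G : Subgroup (UU N)}

/-! ### norms -/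

theorem entry_le (M : Mt N) (i j : Fin N) : ‖M i j‖ ≤ ‖M‖ := by
  rw [Matrix.frobenius_norm_def]
  have h1 : ‖M i j‖ ^ (2 : ℝ) ≤ ∑ j, ‖M i j‖ ^ (2 : ℝ) :=
    Finset.single_le_sum (f := fun j => ‖M i j‖ ^ (2 : ℝ)) (fun _ _ => by positivity) (Finset.mem_univ j)
  have h2 : ∑ j, ‖M i j‖ ^ (2 : ℝ) ≤ ∑ i, ∑ j, ‖M i j‖ ^ (2 : ℝ) :=
    Finset.single_le_sum (f := fun i => ∑ j, ‖M i j‖ ^ (2 : ℝ)) (fun _ _ => by positivity) (Finset.mem_univ i)
  calc ‖M i j‖ = (‖M i j‖ ^ (2 : ℝ)) ^ (1 / 2 : ℝ) := by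
        rw [← Real.rpow_mul (norm_nonneg _)]; norm_num
    _ ≤ _ := Real.rpow_le_rpow (by positivity) (h1.trans h2) (by norm_num)

theorem tr_le (M : Mt N) : |(trace M).re| ≤ N * ‖M‖ := by
  calc |(trace M).re| ≤ ‖trace M‖ := Complex.abs_re_le_norm _
    _ ≤ ∑ i, ‖M i i‖ := norm_sum_le _ _
    _ ≤ ∑ i : Fin N, ‖M‖ := Finset.sum_le_sum fun i _ => entry_le M i i
    _ = N * ‖M‖ := by simp

theorem ip_le (A B : Mt N) : |ip A B| ≤ N * ‖A‖ * ‖B‖ := by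
  unfold ip
  refine (tr_le _).trans ?_
  rw [mul_assoc]
  refine mul_le_mul_of_nonneg_left ?_ (Nat.cast_nonneg _)
  refine (norm_mul_le _ _).trans ?_
  rw [Matrix.frobenius_norm_conjTranspose]

/-! ### bilinear forms -/

/-- the form `ip` -/
def iL : Mt N →ₗ[ℝ] Mt N →ₗ[ℝ] ℝ := LinearMap.mk₂ ℝ ip
  (fun p p' q => by simp only [ip, conjTranspose_add, add_mul, trace_add, Complex.add_re])
  (fun c p q => by
    simp only [ip, conjTranspose_smul, star_trivial, Matrix.smul_mul, trace_smul, Complex.real_smul,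
      Complex.re_ofReal_mul, smul_eq_mul])
  (fun p q q' => by simp only [ip, mul_add, trace_add, Complex.add_re])
  (fun c p q => by
    simp only [ip, Matrix.mul_smul, trace_smul, Complex.real_smul, Complex.re_ofReal_mul, smul_eq_mul])

/-- the form `kp` -/
def kL (X : Mt N) : Mt N →ₗ[ℝ] Mt N →ₗ[ℝ] ℝ := LinearMap.mk₂ ℝ (kp X)
  (fun p p' q => by simp only [kp, mul_add, add_mul, trace_add, Complex.add_re])
  (fun c p q => by
    simp only [kp, Matrix.smul_mul, Matrix.mul_smul, trace_smul, Complex.real_smul,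
      Complex.re_ofReal_mul, smul_eq_mul])
  (fun p q q' => by simp only [kp, mul_add, trace_add, Complex.add_re])
  (fun c p q => by
    simp only [kp, Matrix.mul_smul, trace_smul, Complex.real_smul, Complex.re_ofReal_mul, smul_eq_mul])

/-- the commutator -/
def ad (X : Mt N) : Mt N →ₗ[ℝ] Mt N := LinearMap.mulLeft ℝ X - LinearMap.mulRight ℝ X
/-- the anticommutator -/
def ac (X : Mt N) : Mt N →ₗ[ℝ] Mt N := LinearMap.mulLeft ℝ X + LinearMap.mulRight ℝ X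

/-- the form `gp` -/
def gL (X : Mt N) : Mt N →ₗ[ℝ] Mt N →ₗ[ℝ] ℝ := iL.compl₁₂ (ad X) (ad X)
/-- the form `hp` -/
def hL (X : Mt N) : Mt N →ₗ[ℝ] Mt N →ₗ[ℝ] ℝ := iL.compl₁₂ (ac X) (ac X)

theorem kL_apply (X p q : Mt N) : kL X p q = kp X p q := rfl
theorem gL_apply (X p q : Mt N) : gL X p q = gp X p q := rfl
theorem hL_apply (X p q : Mt N) : hL X p q = hp X p q := rfl

theorem kL_le (X p q : Mt N) : |kL X p q| ≤ N * ‖X‖ * ‖p‖ * ‖q‖ := by
  rw [kL_apply]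
  unfold kp
  refine (tr_le _).trans ?_
  have h1 : ‖X * p * q‖ ≤ ‖X‖ * ‖p‖ * ‖q‖ :=
    (norm_mul_le _ _).trans (mul_le_mul_of_nonneg_right (norm_mul_le _ _) (norm_nonneg _))
  calc (N : ℝ) * ‖X * p * q‖ ≤ N * (‖X‖ * ‖p‖ * ‖q‖) := mul_le_mul_of_nonneg_left h1 (Nat.cast_nonneg _)
    _ = _ := by ring

theorem gL_le (X p q : Mt N) : |gL X p q| ≤ N * (2 * ‖X‖) ^ 2 * ‖p‖ * ‖q‖ := by
  rw [gL_apply]
  unfold gp
  refine (ip_le _ _).trans ?_
  have h : ∀ p : Mt N, ‖X * p - p * X‖ ≤ 2 * ‖X‖ * ‖p‖ := by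
    intro p
    have h1 := norm_sub_le (X * p) (p * X)
    have h2 := norm_mul_le X p
    have h3 := norm_mul_le p X
    nlinarith
  calc (N : ℝ) * ‖X * p - p * X‖ * ‖X * q - q * X‖ ≤ N * (2 * ‖X‖ * ‖p‖) * (2 * ‖X‖ * ‖q‖) := by
        gcongr
        · exact h p
        · exact h q
    _ = _ := by ring

theorem hL_le (X p q : Mt N) : |hL X p q| ≤ N * (2 * ‖X‖) ^ 2 * ‖p‖ * ‖q‖ := by
  rw [hL_apply]
  unfold hp
  refine (ip_le _ _).trans ?_
  have h : ∀ p : Mt N, ‖X * p + p * X‖ ≤ 2 * ‖X‖ * ‖p‖ := by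
    intro p
    have h1 := norm_add_le (X * p) (p * X)
    have h2 := norm_mul_le X p
    have h3 := norm_mul_le p X
    nlinarith
  calc (N : ℝ) * ‖X * p + p * X‖ * ‖X * q + q * X‖ ≤ N * (2 * ‖X‖ * ‖p‖) * (2 * ‖X‖ * ‖q‖) := by
        gcongr
        · exact h p
        · exact h q
    _ = _ := by ring

theorem ip_symm (A B : Mt N) : ip A B = ip B A := by
  unfold ip
  have e : (Aᴴ * B) = (Bᴴ * A)ᴴ := by rw [conjTranspose_mul, conjTranspose_conjTranspose]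
  rw [e, trace_conjTranspose]
  simp

theorem kp_anti {X A B : Mt N} (hX : Xᴴ = -X) (hA : Aᴴ = -A) (hB : Bᴴ = -B) :
    kp X A B = -kp X B A := by
  unfold kp
  have e : X * A * B = -(B * A * X)ᴴ := by
    rw [conjTranspose_mul, conjTranspose_mul, hX, hA, hB]
    simp [mul_assoc]
  rw [e, trace_neg, trace_conjTranspose, trace_mul_comm (B * A) X, ← mul_assoc]
  simp

theorem bexp (B : Mt N →ₗ[ℝ] Mt N →ₗ[ℝ] ℝ) (T : Fin n → Mt N) (u v : Fin n → ℝ) :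
    B (∑ a, u a • T a) (∑ b, v b • T b) = ∑ a, ∑ b, B (T a) (T b) * (u a * v b) := by
  rw [map_sum B, LinearMap.sum_apply]
  refine Finset.sum_congr rfl fun a _ => ?_
  rw [map_sum]
  refine Finset.sum_congr rfl fun b _ => ?_
  rw [map_smul, map_smul, LinearMap.smul_apply, smul_eq_mul, smul_eq_mul]
  ring

theorem bexp_anti (B : Mt N →ₗ[ℝ] Mt N →ₗ[ℝ] ℝ) (T : Fin n → Mt N)
    (h : ∀ a b, B (T a) (T b) = -B (T b) (T a)) (u v : Fin n → ℝ) :
    B (∑ a, u a • T a) (∑ b, v b • T b) =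
      ∑ a, ∑ b, (1 / 2 * B (T a) (T b)) * (u a * v b - u b * v a) := by
  rw [bexp]
  have e : ∑ a, ∑ b, B (T a) (T b) * (u b * v a) = -∑ a, ∑ b, B (T a) (T b) * (u a * v b) := by
    rw [Finset.sum_comm, ← Finset.sum_neg_distrib]
    refine Finset.sum_congr rfl fun a _ => ?_
    rw [← Finset.sum_neg_distrib]
    refine Finset.sum_congr rfl fun b _ => ?_
    rw [h b a]
    ring
  have e2 : ∑ a, ∑ b, (1 / 2 * B (T a) (T b)) * (u a * v b - u b * v a) =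
      1 / 2 * ∑ a, ∑ b, B (T a) (T b) * (u a * v b) -
      1 / 2 * ∑ a, ∑ b, B (T a) (T b) * (u b * v a) := by
    simp only [Finset.mul_sum, ← Finset.sum_sub_distrib]
    exact Finset.sum_congr rfl fun a _ => Finset.sum_congr rfl fun b _ => by ring
  rw [e2, e]
  ring

theorem bexp_symm (B : Mt N →ₗ[ℝ] Mt N →ₗ[ℝ] ℝ) (T : Fin n → Mt N)
    (h : ∀ a b, B (T a) (T b) = B (T b) (T a)) (u v : Fin n → ℝ) :
    B (∑ a, u a • T a) (∑ b, v b • T b) =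
      ∑ a, ∑ b, (1 / 2 * B (T a) (T b)) * (u a * v b + u b * v a) := by
  rw [bexp]
  have e : ∑ a, ∑ b, B (T a) (T b) * (u b * v a) = ∑ a, ∑ b, B (T a) (T b) * (u a * v b) := by
    rw [Finset.sum_comm]
    refine Finset.sum_congr rfl fun a _ => ?_
    refine Finset.sum_congr rfl fun b _ => ?_
    rw [h b a]
  have e2 : ∑ a, ∑ b, (1 / 2 * B (T a) (T b)) * (u a * v b + u b * v a) =
      1 / 2 * ∑ a, ∑ b, B (T a) (T b) * (u a * v b) +
      1 / 2 * ∑ a, ∑ b, B (T a) (T b) * (u b * v a) := by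
    simp only [Finset.mul_sum, ← Finset.sum_add_distrib]
    exact Finset.sum_congr rfl fun a _ => Finset.sum_congr rfl fun b _ => by ring
  rw [e2, e]
  ring

/-! ### comparison -/

/-- comparison -/
structure Cmp (K0 C1 s : ℝ) (w v : Mt N) : Prop where
  a : ‖w‖ ≤ s
  b : ‖v‖ ≤ K0 * s
  c : ‖w - v‖ ≤ C1 * s ^ 2

theorem Cmp.nn {K0 C1 s : ℝ} {w v : Mt N} (h : Cmp K0 C1 s w v) : 0 ≤ s := (norm_nonneg _).trans h.a

theorem Cmp.zero {K0 C1 s : ℝ} (hs : 0 ≤ s) (h0 : 0 ≤ K0) (h1 : 0 ≤ C1) : Cmp K0 C1 s (0 : Mt N) 0 :=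
  ⟨by rw [norm_zero]; exact hs, by rw [norm_zero]; positivity, by rw [sub_zero, norm_zero]; positivity⟩

theorem Cmp.add {K0 C1 s s' : ℝ} (h1 : 0 ≤ C1) {w v w' v' : Mt N} (h : Cmp K0 C1 s w v)
    (h' : Cmp K0 C1 s' w' v') : Cmp K0 C1 (s + s') (w + w') (v + v') := by
  refine ⟨(norm_add_le _ _).trans (add_le_add h.a h'.a), (norm_add_le _ _).trans ?_, ?_⟩
  · rw [mul_add]
    exact add_le_add h.b h'.b
  · have e : w + w' - (v + v') = (w - v) + (w' - v') := by abel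
    rw [e]
    refine (norm_add_le _ _).trans ((add_le_add h.c h'.c).trans ?_)
    have := mul_nonneg h1 (mul_nonneg h.nn h'.nn)
    nlinarith

theorem Cmp.neg {K0 C1 s : ℝ} {w v : Mt N} (h : Cmp K0 C1 s w v) : Cmp K0 C1 s (-w) (-v) := by
  refine ⟨by rw [norm_neg]; exact h.a, by rw [norm_neg]; exact h.b, ?_⟩
  have e : -w - -v = -(w - v) := by abel
  rw [e, norm_neg]
  exact h.c

theorem Cmp.sub {K0 C1 s s' : ℝ} (h1 : 0 ≤ C1) {w v w' v' : Mt N} (h : Cmp K0 C1 s w v)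
    (h' : Cmp K0 C1 s' w' v') : Cmp K0 C1 (s + s') (w - w') (v - v') := by
  rw [sub_eq_add_neg, sub_eq_add_neg]
  exact h.add h1 h'.neg

theorem Cmp.mono {K0 C1 s s' : ℝ} (h0 : 0 ≤ K0) (h1 : 0 ≤ C1) {w v : Mt N} (h : Cmp K0 C1 s w v)
    (hs : s ≤ s') : Cmp K0 C1 s' w v := by
  refine ⟨h.a.trans hs, h.b.trans (mul_le_mul_of_nonneg_left hs h0), h.c.trans ?_⟩
  have := h.nn
  gcongr

theorem Cmp.dif (B : Mt N →ₗ[ℝ] Mt N →ₗ[ℝ] ℝ) {K K0 C1 s : ℝ} (hK : 0 ≤ K) (h0 : 0 ≤ K0) (h1 : 0 ≤ C1)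
    (hB : ∀ p q, |B p q| ≤ K * ‖p‖ * ‖q‖) {w v w' v' : Mt N} (h : Cmp K0 C1 s w v)
    (h' : Cmp K0 C1 s w' v') : |B w w' - B v v'| ≤ K * C1 * (1 + K0) * s ^ 3 := by
  have e : B w w' - B v v' = B (w - v) w' + B v (w' - v') := by
    rw [map_sub, LinearMap.sub_apply, map_sub]
    ring
  rw [e]
  have hs := h.nn
  refine (abs_add_le _ _).trans ?_
  have t1 : |B (w - v) w'| ≤ K * (C1 * s ^ 2) * s := by
    refine (hB _ _).trans ?_
    have := h.c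
    have := h'.a
    gcongr
  have t2 : |B v (w' - v')| ≤ K * (K0 * s) * (C1 * s ^ 2) := by
    refine (hB _ _).trans ?_
    have := h.b
    have := h'.c
    gcongr
  calc |B (w - v) w'| + |B v (w' - v')| ≤ K * (C1 * s ^ 2) * s + K * (K0 * s) * (C1 * s ^ 2) :=
        add_le_add t1 t2
    _ = _ := by ring

/-! ### sums -/

theorem s12_eq (L : ℕ) (F : ℕ → ℕ → ℕ → ℕ → ℝ) : s12 L F =
    ∑ p ∈ range L ×ˢ range L ×ˢ Ico 1 L ×ˢ Icc 1 L, F p.1 p.2.1 p.2.2.1 p.2.2.2 := by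
  simp only [s12, Finset.sum_product]

theorem s23_eq (L : ℕ) (F : ℕ → ℕ → ℕ → ℕ → ℝ) : s23 L F =
    ∑ p ∈ Ico 1 L ×ˢ range L ×ˢ range L ×ˢ Icc 1 L, F p.1 p.2.1 p.2.2.1 p.2.2.2 := by
  simp only [s23, Finset.sum_product]

theorem s12_dif (L : ℕ) (F F' : ℕ → ℕ → ℕ → ℕ → ℝ) (M : ℝ) (hM : 0 ≤ M)
    (h : ∀ x y z t, x < L → |F x y z t - F' x y z t| ≤ M) : |s12 L F - s12 L F'| ≤ (L : ℝ) ^ 4 * M := by
  rw [s12_eq, s12_eq, ← Finset.sum_sub_distrib]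
  refine (Finset.abs_sum_le_sum_abs _ _).trans ?_
  refine (Finset.sum_le_card_nsmul _ _ M fun p hp => h _ _ _ _ ?_).trans ?_
  · rw [Finset.mem_product, Finset.mem_range] at hp
    exact hp.1
  · rw [nsmul_eq_mul]
    refine mul_le_mul_of_nonneg_right ?_ hM
    rw [Finset.card_product, Finset.card_product, Finset.card_product, Finset.card_range, Nat.card_Ico,
      Nat.card_Icc, Nat.add_sub_cancel]
    have : L * (L * ((L - 1) * L)) ≤ L ^ 4 := by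
      calc L * (L * ((L - 1) * L)) ≤ L * (L * (L * L)) := by
            gcongr
            exact Nat.sub_le _ _
        _ = L ^ 4 := by ring
    exact_mod_cast this

theorem s23_dif (L : ℕ) (F F' : ℕ → ℕ → ℕ → ℕ → ℝ) (M : ℝ) (hM : 0 ≤ M)
    (h : ∀ x y z t, x < L → |F x y z t - F' x y z t| ≤ M) : |s23 L F - s23 L F'| ≤ (L : ℝ) ^ 4 * M := by
  rw [s23_eq, s23_eq, ← Finset.sum_sub_distrib]
  refine (Finset.abs_sum_le_sum_abs _ _).trans ?_
  refine (Finset.sum_le_card_nsmul _ _ M fun p hp => h _ _ _ _ ?_).trans ?_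
  · rw [Finset.mem_product, Finset.mem_Ico] at hp
    exact hp.1.2
  · rw [nsmul_eq_mul]
    refine mul_le_mul_of_nonneg_right ?_ hM
    rw [Finset.card_product, Finset.card_product, Finset.card_product, Finset.card_range, Nat.card_Ico,
      Nat.card_Icc, Nat.add_sub_cancel]
    have : (L - 1) * (L * (L * L)) ≤ L ^ 4 := by
      calc (L - 1) * (L * (L * L)) ≤ L * (L * (L * L)) := by
            gcongr
            exact Nat.sub_le _ _
        _ = L ^ 4 := by ring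
    exact_mod_cast this

theorem s12_sum (L : ℕ) (c : Fin n → Fin n → ℝ) (F : Fin n → Fin n → ℕ → ℕ → ℕ → ℕ → ℝ) :
    s12 L (fun x y z h => ∑ a, ∑ b, c a b * F a b x y z h) = ∑ a, ∑ b, c a b * s12 L (F a b) := by
  simp only [s12_eq, Finset.mul_sum]
  rw [Finset.sum_comm]
  refine Finset.sum_congr rfl fun a _ => ?_
  rw [Finset.sum_comm]

theorem s23_sum (L : ℕ) (c : Fin n → Fin n → ℝ) (F : Fin n → Fin n → ℕ → ℕ → ℕ → ℕ → ℝ) :
    s23 L (fun x y z h => ∑ a, ∑ b, c a b * F a b x y z h) = ∑ a, ∑ b, c a b * s23 L (F a b) := by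
  simp only [s23_eq, Finset.mul_sum]
  rw [Finset.sum_comm]
  refine Finset.sum_congr rfl fun a _ => ?_
  rw [Finset.sum_comm]

theorem swap4 {I : Type} [Fintype I] (M : I → I → ℝ) (k : Fin n → Fin n → ℝ) (φ : Fin n → I → ℝ) :
    ∑ a, ∑ b, k a b * (∑ i, ∑ j, M i j * φ a i * φ b j) =
      ∑ i, ∑ j, ∑ a, ∑ b, M i j * k a b * φ a i * φ b j := by
  have e1 : ∑ a, ∑ b, k a b * (∑ i, ∑ j, M i j * φ a i * φ b j) =
      ∑ p : Fin n × Fin n, ∑ q : I × I, M q.1 q.2 * k p.1 p.2 * φ p.1 q.1 * φ p.2 q.2 := by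
    rw [Fintype.sum_prod_type]
    refine Finset.sum_congr rfl fun a _ => Finset.sum_congr rfl fun b _ => ?_
    rw [Fintype.sum_prod_type, Finset.mul_sum]
    refine Finset.sum_congr rfl fun i _ => ?_
    rw [Finset.mul_sum]
    exact Finset.sum_congr rfl fun j _ => by ring
  rw [e1, Finset.sum_comm, Fintype.sum_prod_type]
  refine Finset.sum_congr rfl fun i _ => Finset.sum_congr rfl fun j _ => ?_
  rw [Fintype.sum_prod_type]

/-! ### the extended fields -/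

/-- direction 1, real -/
def E1 (f : IH L → ℝ) : ℕ → ℕ → ℕ → ℕ → ℝ := ex1 L (fun i => f (Sum.inl i)) 0
/-- direction 2, real -/
def E2 (f : IH L → ℝ) : ℕ → ℕ → ℕ → ℕ → ℝ := ex2 L (fun i => f (Sum.inr (Sum.inl i))) 0
/-- direction 3, real -/
def E3 (f : IH L → ℝ) : ℕ → ℕ → ℕ → ℕ → ℝ := ex3 L (fun i => f (Sum.inr (Sum.inr i))) 0
/-- direction 1, matrices -/
def M1 (f : IH L → Mt N) : ℕ → ℕ → ℕ → ℕ → Mt N := ex1 L (fun i => f (Sum.inl i)) 0
/-- direction 2, matrices -/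
def M2 (f : IH L → Mt N) : ℕ → ℕ → ℕ → ℕ → Mt N := ex2 L (fun i => f (Sum.inr (Sum.inl i))) 0
/-- direction 3, matrices -/
def M3 (f : IH L → Mt N) : ℕ → ℕ → ℕ → ℕ → Mt N := ex3 L (fun i => f (Sum.inr (Sum.inr i))) 0

/-- the field with given components -/
def VV (T : Fin n → Mt N) (φ : Fin n → IH L → ℝ) (l : IH L) : Mt N := ∑ a, φ a l • T a

theorem M1_VV (T : Fin n → Mt N) (φ : Fin n → IH L → ℝ) (x y z h : ℕ) :
    M1 (VV T φ) x y z h = ∑ a, E1 (φ a) x y z h • T a := by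
  unfold M1 E1 ex1
  split_ifs
  · rfl
  · simp

theorem M2_VV (T : Fin n → Mt N) (φ : Fin n → IH L → ℝ) (x y z h : ℕ) :
    M2 (VV T φ) x y z h = ∑ a, E2 (φ a) x y z h • T a := by
  unfold M2 E2 ex2
  split_ifs
  · rfl
  · simp

theorem M3_VV (T : Fin n → Mt N) (φ : Fin n → IH L → ℝ) (x y z h : ℕ) :
    M3 (VV T φ) x y z h = ∑ a, E3 (φ a) x y z h • T a := by
  unfold M3 E3 ex3
  split_ifs
  · rfl
  · simp

theorem M1_ind (Q : Mt N → Mt N → Prop) (h0 : Q 0 0) {u u' : IH L → Mt N} (h : ∀ l, Q (u l) (u' l))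
    (x y z t : ℕ) : Q (M1 u x y z t) (M1 u' x y z t) := by
  unfold M1 ex1
  split_ifs
  · exact h _
  · exact h0

theorem M2_ind (Q : Mt N → Mt N → Prop) (h0 : Q 0 0) {u u' : IH L → Mt N} (h : ∀ l, Q (u l) (u' l))
    (x y z t : ℕ) : Q (M2 u x y z t) (M2 u' x y z t) := by
  unfold M2 ex2
  split_ifs
  · exact h _
  · exact h0

theorem M3_ind (Q : Mt N → Mt N → Prop) (h0 : Q 0 0) {u u' : IH L → Mt N} (h : ∀ l, Q (u l) (u' l))
    (x y z t : ℕ) : Q (M3 u x y z t) (M3 u' x y z t) := by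
  unfold M3 ex3
  split_ifs
  · exact h _
  · exact h0


/-! ### the scalar identities -/

/-- plane 12, antisymmetric -/
def W12 (f g : IH L → ℝ) (x y z h : ℕ) : ℝ :=
  -(2 * (x : ℝ) + 1) * (E1 f x y z h * E1 g x (y + 1) z h - E1 g x y z h * E1 f x (y + 1) z h) -
    ((x : ℝ) + 1) * (E1 f x y z h * E2 g x y z h - E1 g x y z h * E2 f x y z h) -
    ((x : ℝ) + 1) * (E1 f x (y + 1) z h * E2 g x y z h - E1 g x (y + 1) z h * E2 f x y z h) +
    (x : ℝ) * (E1 f x y z h * E2 g (x + 1) y z h - E1 g x y z h * E2 f (x + 1) y z h) -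
    (x : ℝ) * (E2 f (x + 1) y z h * E1 g x (y + 1) z h - E2 g (x + 1) y z h * E1 f x (y + 1) z h)

/-- plane 23, antisymmetric -/
def W23 (f g : IH L → ℝ) (x y z h : ℕ) : ℝ :=
  -(x : ℝ) * ((E3 f x (y + 1) z h * E2 g x y z h - E3 g x (y + 1) z h * E2 f x y z h) -
    (E3 f x (y + 1) z h * E2 g x y (z + 1) h - E3 g x (y + 1) z h * E2 f x y (z + 1) h) -
    2 * (E3 f x (y + 1) z h * E3 g x y z h - E3 g x (y + 1) z h * E3 f x y z h) +
    (E3 f x y z h * E2 g x y z h - E3 g x y z h * E2 f x y z h) -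
    (E3 f x y z h * E2 g x y (z + 1) h - E3 g x y z h * E2 f x y (z + 1) h))

/-- plane 12, symmetric -/
def R12 (f g : IH L → ℝ) (x y z h : ℕ) : ℝ :=
  -(1 / 8) * ((E1 f x y z h * E1 g x y z h + E1 g x y z h * E1 f x y z h) +
      (E2 f (x + 1) y z h * E2 g (x + 1) y z h + E2 g (x + 1) y z h * E2 f (x + 1) y z h) +
      (E1 f x (y + 1) z h * E1 g x (y + 1) z h + E1 g x (y + 1) z h * E1 f x (y + 1) z h) +
      (E2 f x y z h * E2 g x y z h + E2 g x y z h * E2 f x y z h)) -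
    ((x : ℝ) + 1) ^ 2 / 4 * (E1 f x (y + 1) z h * E2 g x y z h + E1 g x (y + 1) z h * E2 f x y z h) -
    (x : ℝ) ^ 2 / 4 * (E1 f x y z h * E2 g (x + 1) y z h + E1 g x y z h * E2 f (x + 1) y z h) +
    (x : ℝ) ^ 2 / 4 * (E2 f (x + 1) y z h * E1 g x (y + 1) z h + E2 g (x + 1) y z h * E1 f x (y + 1) z h) +
    ((x : ℝ) + 1) ^ 2 / 4 * (E1 f x y z h * E2 g x y z h + E1 g x y z h * E2 f x y z h) +
    (2 * (x : ℝ) + 1) ^ 2 / 4 * (E1 f x y z h * E1 g x (y + 1) z h + E1 g x y z h * E1 f x (y + 1) z h)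

/-- plane 23, symmetric -/
def R23 (f g : IH L → ℝ) (x y z h : ℕ) : ℝ :=
  (x : ℝ) ^ 2 / 4 * ((E3 f x (y + 1) z h + E3 f x y z h) * (E3 g x (y + 1) z h + E3 g x y z h) +
      (E3 g x (y + 1) z h + E3 g x y z h) * (E3 f x (y + 1) z h + E3 f x y z h)) -
    (x : ℝ) ^ 2 / 4 * ((E3 f x (y + 1) z h - E3 f x y z h) *
        (E2 g x y z h - E2 g x y (z + 1) h + (E3 g x (y + 1) z h - E3 g x y z h)) +
      (E3 g x (y + 1) z h - E3 g x y z h) *
        (E2 f x y z h - E2 f x y (z + 1) h + (E3 f x (y + 1) z h - E3 f x y z h)))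

theorem sp (hSP : S_SP) (hQF : Pool.Agent.H586.AF.S_QF) (hHR : Pool.Agent.H586.AF.S_HR) (hL2 : 2 ≤ L)
    (f g : IH L → ℝ) :
    s12 L (W12 f g) + s23 L (W23 f g) = 2 * ∑ i, ∑ j, Pool.Agent.H586.AF.mB L i j * f i * g j ∧
    s12 L (R12 f g) + s23 L (R23 f g) = ∑ i, ∑ j, Pool.Agent.H586.AF.mC L i j * f i * g j :=
  hSP hQF hHR L hL2 f g

theorem c12_add (f g : IH L → ℝ) (x y z h : ℕ) : Pool.Agent.H586.AF.c12 (f + g) x y z h =
    Pool.Agent.H586.AF.c12 f x y z h + Pool.Agent.H586.AF.c12 g x y z h := by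
  have h1 : ∀ x y z h, ex1 L (fun i => (f + g) (Sum.inl i)) 0 x y z h =
      ex1 L (fun i => f (Sum.inl i)) 0 x y z h + ex1 L (fun i => g (Sum.inl i)) 0 x y z h := by
    intro x y z h
    unfold ex1
    split_ifs
    · rfl
    · simp
  have h2 : ∀ x y z h, ex2 L (fun i => (f + g) (Sum.inr (Sum.inl i))) 0 x y z h =
      ex2 L (fun i => f (Sum.inr (Sum.inl i))) 0 x y z h +
      ex2 L (fun i => g (Sum.inr (Sum.inl i))) 0 x y z h := by
    intro x y z h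
    unfold ex2
    split_ifs
    · rfl
    · simp
  unfold Pool.Agent.H586.AF.c12
  rw [h1, h1, h2, h2]
  ring

theorem ai (hAI : Pool.Agent.H586.AF.S_AI) (hL2 : 2 ≤ L) (f g : IH L → ℝ) :
    s12 L (fun x y z h => Pool.Agent.H586.AF.c12 f x y z h * Pool.Agent.H586.AF.c12 g x y z h) =
      ∑ i, ∑ j, Pool.Agent.H586.AF.mR L i j * f i * g j := by
  obtain ⟨-, -, -, -, -, hR⟩ := hAI L hL2
  have h1 := hR (f + g)
  have h2 := hR f
  have h3 := hR g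
  have hs : ∀ i j, Pool.Agent.H586.AF.mR L i j = Pool.Agent.H586.AF.mR L j i := by
    intro i j
    show s12 L _ = s12 L _
    simp only [mul_comm]
  have e1 : s12 L (fun x y z h => Pool.Agent.H586.AF.c12 (f + g) x y z h ^ 2) =
      s12 L (fun x y z h => Pool.Agent.H586.AF.c12 f x y z h ^ 2) +
      s12 L (fun x y z h => Pool.Agent.H586.AF.c12 g x y z h ^ 2) +
      2 * s12 L (fun x y z h => Pool.Agent.H586.AF.c12 f x y z h * Pool.Agent.H586.AF.c12 g x y z h) := by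
    simp only [s12_eq, Finset.mul_sum, ← Finset.sum_add_distrib]
    refine Finset.sum_congr rfl fun p _ => ?_
    rw [c12_add]
    ring
  have e2 : ∑ i, ∑ j, Pool.Agent.H586.AF.mR L i j * g i * f j =
      ∑ i, ∑ j, Pool.Agent.H586.AF.mR L i j * f i * g j := by
    rw [Finset.sum_comm]
    refine Finset.sum_congr rfl fun i _ => Finset.sum_congr rfl fun j _ => ?_
    rw [hs j i]
    ring
  have e3 : ∑ i, ∑ j, Pool.Agent.H586.AF.mR L i j * (f + g) i * (f + g) j =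
      ∑ i, ∑ j, Pool.Agent.H586.AF.mR L i j * f i * f j +
      ∑ i, ∑ j, Pool.Agent.H586.AF.mR L i j * g i * g j +
      ∑ i, ∑ j, Pool.Agent.H586.AF.mR L i j * f i * g j +
      ∑ i, ∑ j, Pool.Agent.H586.AF.mR L i j * g i * f j := by
    simp only [← Finset.sum_add_distrib, Pi.add_apply]
    exact Finset.sum_congr rfl fun i _ => Finset.sum_congr rfl fun j _ => by ring
  rw [e1, h2, h3, e3, e2] at h1
  linarith

/-! ### the quadratic forms at the linear field -/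

theorem k12_VV {X : Mt N} {T : Fin n → Mt N} (hk : ∀ a b, kp X (T a) (T b) = -kp X (T b) (T a))
    (φ : Fin n → IH L → ℝ) (x y z h : ℕ) :
    k12 X x (M1 (VV T φ) x y z h) (M2 (VV T φ) (x + 1) y z h) (M1 (VV T φ) x (y + 1) z h)
      (M2 (VV T φ) x y z h) = ∑ a, ∑ b, (1 / 2 * kp X (T a) (T b)) * W12 (φ a) (φ b) x y z h := by
  have key : ∀ u v : Fin n → ℝ, kp X (∑ a, u a • T a) (∑ b, v b • T b) =
      ∑ a, ∑ b, (1 / 2 * kp X (T a) (T b)) * (u a * v b - u b * v a) := fun u v => bexp_anti (kL X) T hk u v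
  unfold k12
  rw [M1_VV, M1_VV, M2_VV, M2_VV, key, key, key, key, key]
  simp only [Finset.mul_sum, ← Finset.sum_sub_distrib, ← Finset.sum_add_distrib]
  refine Finset.sum_congr rfl fun a _ => Finset.sum_congr rfl fun b _ => ?_
  unfold W12
  ring

theorem k23_VV {X : Mt N} {T : Fin n → Mt N} (hk : ∀ a b, kp X (T a) (T b) = -kp X (T b) (T a))
    (φ : Fin n → IH L → ℝ) (x y z h : ℕ) :
    k23 X x (M2 (VV T φ) x y z h) (M3 (VV T φ) x (y + 1) z h) (M2 (VV T φ) x y (z + 1) h)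
      (M3 (VV T φ) x y z h) = ∑ a, ∑ b, (1 / 2 * kp X (T a) (T b)) * W23 (φ a) (φ b) x y z h := by
  have key : ∀ u v : Fin n → ℝ, kp X (∑ a, u a • T a) (∑ b, v b • T b) =
      ∑ a, ∑ b, (1 / 2 * kp X (T a) (T b)) * (u a * v b - u b * v a) := fun u v => bexp_anti (kL X) T hk u v
  unfold k23
  rw [M2_VV, M2_VV, M3_VV, M3_VV, key, key, key, key, key]
  simp only [Finset.mul_sum, ← Finset.sum_sub_distrib, ← Finset.sum_add_distrib]
  refine Finset.sum_congr rfl fun a _ => Finset.sum_congr rfl fun b _ => ?_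
  unfold W23
  ring

theorem g12_VV {X : Mt N} {T : Fin n → Mt N} (φ : Fin n → IH L → ℝ) (x y z h : ℕ) :
    g12 X x (M1 (VV T φ) x y z h) (M2 (VV T φ) (x + 1) y z h) (M1 (VV T φ) x (y + 1) z h)
      (M2 (VV T φ) x y z h) = ∑ a, ∑ b, (1 / 2 * gp X (T a) (T b)) * R12 (φ a) (φ b) x y z h := by
  have key : ∀ u v : Fin n → ℝ, gp X (∑ a, u a • T a) (∑ b, v b • T b) =
      ∑ a, ∑ b, (1 / 2 * gp X (T a) (T b)) * (u a * v b + u b * v a) := fun u v =>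
    bexp_symm (gL X) T (fun a b => ip_symm _ _) u v
  unfold g12
  rw [M1_VV, M1_VV, M2_VV, M2_VV, key, key, key, key, key, key, key, key, key]
  simp only [Finset.mul_sum, ← Finset.sum_sub_distrib, ← Finset.sum_add_distrib]
  refine Finset.sum_congr rfl fun a _ => Finset.sum_congr rfl fun b _ => ?_
  unfold R12
  ring

theorem g23_VV {X : Mt N} {T : Fin n → Mt N} (φ : Fin n → IH L → ℝ) (x y z h : ℕ) :
    g23 X x (M2 (VV T φ) x y z h) (M3 (VV T φ) x (y + 1) z h) (M2 (VV T φ) x y (z + 1) h)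
      (M3 (VV T φ) x y z h) = ∑ a, ∑ b, (1 / 2 * gp X (T a) (T b)) * R23 (φ a) (φ b) x y z h := by
  have key : ∀ u v : Fin n → ℝ, gp X (∑ a, u a • T a) (∑ b, v b • T b) =
      ∑ a, ∑ b, (1 / 2 * gp X (T a) (T b)) * (u a * v b + u b * v a) := fun u v =>
    bexp_symm (gL X) T (fun a b => ip_symm _ _) u v
  have s1 : ∀ u v : Fin n → ℝ, (∑ a, u a • T a) + (∑ a, v a • T a) = ∑ a, (u a + v a) • T a := by
    intro u v
    rw [← Finset.sum_add_distrib]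
    exact Finset.sum_congr rfl fun a _ => (add_smul _ _ _).symm
  have s2 : ∀ u v : Fin n → ℝ, (∑ a, u a • T a) - (∑ a, v a • T a) = ∑ a, (u a - v a) • T a := by
    intro u v
    rw [← Finset.sum_sub_distrib]
    exact Finset.sum_congr rfl fun a _ => (sub_smul _ _ _).symm
  unfold g23
  rw [M2_VV, M2_VV, M3_VV, M3_VV, s1, s2, s2, s1, key, key]
  simp only [Finset.mul_sum, ← Finset.sum_sub_distrib]
  refine Finset.sum_congr rfl fun a _ => Finset.sum_congr rfl fun b _ => ?_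
  unfold R23
  ring

theorem hc_VV {X : Mt N} {T : Fin n → Mt N} (φ : Fin n → IH L → ℝ) (x y z h : ℕ) :
    hp X (c12 (VV T φ) x y z h) (c12 (VV T φ) x y z h) = ∑ a, ∑ b, hp X (T a) (T b) *
      (Pool.Agent.H586.AF.c12 (φ a) x y z h * Pool.Agent.H586.AF.c12 (φ b) x y z h) := by
  have e : c12 (VV T φ) x y z h = ∑ a, Pool.Agent.H586.AF.c12 (φ a) x y z h • T a := by
    show M1 (VV T φ) x y z h + M2 (VV T φ) (x + 1) y z h - M1 (VV T φ) x (y + 1) z h -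
      M2 (VV T φ) x y z h = _
    rw [M1_VV, M1_VV, M2_VV, M2_VV, ← Finset.sum_add_distrib, ← Finset.sum_sub_distrib,
      ← Finset.sum_sub_distrib]
    refine Finset.sum_congr rfl fun a _ => ?_
    rw [← add_smul, ← sub_smul, ← sub_smul]
    rfl
  rw [e]
  exact bexp (hL X) T _ _


/-! ### differences -/

theorem tmb {c δ M c' : ℝ} (hc : |c| ≤ c') (hδ : |δ| ≤ M) : |c * δ| ≤ c' * M := by
  rw [abs_mul]
  exact mul_le_mul hc hδ (abs_nonneg _) ((abs_nonneg _).trans hc)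

theorem xL {x : ℕ} (hx : x < L) : (x : ℝ) + 1 ≤ (L : ℝ) ^ 2 ∧ ((x : ℝ) + 1) ^ 2 ≤ (L : ℝ) ^ 2 := by
  have h1 : (x : ℝ) + 1 ≤ L := by exact_mod_cast hx
  have h0 : (0 : ℝ) ≤ x := Nat.cast_nonneg x
  have h2 : (1 : ℝ) ≤ L := by linarith
  constructor
  · nlinarith
  · gcongr

theorem k12_dif (X : Mt N) {M : ℝ} (Q : Mt N → Mt N → Prop)
    (D : ∀ p p' q q', Q p p' → Q q q' → |kp X p q - kp X p' q'| ≤ M) {x : ℕ} (hx : x < L)
    {a b c d a' b' c' d' : Mt N} (ha : Q a a') (hb : Q b b') (hc : Q c c') (hd : Q d d') :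
    |k12 X x a b c d - k12 X x a' b' c' d'| ≤ 40 * (L : ℝ) ^ 2 * M := by
  obtain ⟨h1, h2⟩ := xL hx
  have h0 : (0 : ℝ) ≤ x := Nat.cast_nonneg x
  have hM : 0 ≤ M := (abs_nonneg _).trans (D _ _ _ _ ha ha)
  have hLM : 0 ≤ (L : ℝ) ^ 2 * M := by positivity
  have e : k12 X x a b c d - k12 X x a' b' c' d' =
      -(2 * (x : ℝ) + 1) * (kp X a c - kp X a' c') + -((x : ℝ) + 1) * (kp X a d - kp X a' d') +
      -((x : ℝ) + 1) * (kp X c d - kp X c' d') + (x : ℝ) * (kp X a b - kp X a' b') +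
      -(x : ℝ) * (kp X b c - kp X b' c') := by
    unfold k12
    ring
  have t1 := tmb (c := -(2 * (x : ℝ) + 1)) (c' := 2 * (L : ℝ) ^ 2)
    (by rw [abs_neg, abs_of_nonneg (by positivity)]; linarith) (D _ _ _ _ ha hc)
  have t2 := tmb (c := -((x : ℝ) + 1)) (c' := (L : ℝ) ^ 2)
    (by rw [abs_neg, abs_of_nonneg (by positivity)]; linarith) (D _ _ _ _ ha hd)
  have t3 := tmb (c := -((x : ℝ) + 1)) (c' := (L : ℝ) ^ 2)
    (by rw [abs_neg, abs_of_nonneg (by positivity)]; linarith) (D _ _ _ _ hc hd)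
  have t4 := tmb (c := (x : ℝ)) (c' := (L : ℝ) ^ 2)
    (by rw [abs_of_nonneg (by positivity)]; linarith) (D _ _ _ _ ha hb)
  have t5 := tmb (c := -(x : ℝ)) (c' := (L : ℝ) ^ 2)
    (by rw [abs_neg, abs_of_nonneg (by positivity)]; linarith) (D _ _ _ _ hb hc)
  rw [e]
  rw [abs_le] at t1 t2 t3 t4 t5 ⊢
  constructor <;> linarith [t1.1, t1.2, t2.1, t2.2, t3.1, t3.2, t4.1, t4.2, t5.1, t5.2]

theorem k23_dif (X : Mt N) {M : ℝ} (Q : Mt N → Mt N → Prop)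
    (D : ∀ p p' q q', Q p p' → Q q q' → |kp X p q - kp X p' q'| ≤ M) {x : ℕ} (hx : x < L)
    {a b c d a' b' c' d' : Mt N} (ha : Q a a') (hb : Q b b') (hc : Q c c') (hd : Q d d') :
    |k23 X x a b c d - k23 X x a' b' c' d'| ≤ 40 * (L : ℝ) ^ 2 * M := by
  obtain ⟨h1, h2⟩ := xL hx
  have h0 : (0 : ℝ) ≤ x := Nat.cast_nonneg x
  have hM : 0 ≤ M := (abs_nonneg _).trans (D _ _ _ _ ha ha)
  have hLM : 0 ≤ (L : ℝ) ^ 2 * M := by positivity
  have e : k23 X x a b c d - k23 X x a' b' c' d' =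
      -(x : ℝ) * (kp X b a - kp X b' a') + (x : ℝ) * (kp X b c - kp X b' c') +
      (2 * (x : ℝ)) * (kp X b d - kp X b' d') + -(x : ℝ) * (kp X d a - kp X d' a') +
      (x : ℝ) * (kp X d c - kp X d' c') := by
    unfold k23
    ring
  have t1 := tmb (c := -(x : ℝ)) (c' := (L : ℝ) ^ 2)
    (by rw [abs_neg, abs_of_nonneg (by positivity)]; linarith) (D _ _ _ _ hb ha)
  have t2 := tmb (c := (x : ℝ)) (c' := (L : ℝ) ^ 2)
    (by rw [abs_of_nonneg (by positivity)]; linarith) (D _ _ _ _ hb hc)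
  have t3 := tmb (c := 2 * (x : ℝ)) (c' := 2 * (L : ℝ) ^ 2)
    (by rw [abs_of_nonneg (by positivity)]; linarith) (D _ _ _ _ hb hd)
  have t4 := tmb (c := -(x : ℝ)) (c' := (L : ℝ) ^ 2)
    (by rw [abs_neg, abs_of_nonneg (by positivity)]; linarith) (D _ _ _ _ hd ha)
  have t5 := tmb (c := (x : ℝ)) (c' := (L : ℝ) ^ 2)
    (by rw [abs_of_nonneg (by positivity)]; linarith) (D _ _ _ _ hd hc)
  rw [e]
  rw [abs_le] at t1 t2 t3 t4 t5 ⊢
  constructor <;> linarith [t1.1, t1.2, t2.1, t2.2, t3.1, t3.2, t4.1, t4.2, t5.1, t5.2]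

theorem g12_dif (X : Mt N) {M : ℝ} (Q : Mt N → Mt N → Prop)
    (D : ∀ p p' q q', Q p p' → Q q q' → |gp X p q - gp X p' q'| ≤ M) {x : ℕ} (hx : x < L)
    {a b c d a' b' c' d' : Mt N} (ha : Q a a') (hb : Q b b') (hc : Q c c') (hd : Q d d') :
    |g12 X x a b c d - g12 X x a' b' c' d'| ≤ 40 * (L : ℝ) ^ 2 * M := by
  obtain ⟨h1, h2⟩ := xL hx
  have h0 : (0 : ℝ) ≤ x := Nat.cast_nonneg x
  have hM : 0 ≤ M := (abs_nonneg _).trans (D _ _ _ _ ha ha)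
  have hLM : 0 ≤ (L : ℝ) ^ 2 * M := by positivity
  have hx2 : (x : ℝ) ^ 2 ≤ ((x : ℝ) + 1) ^ 2 := by nlinarith
  have hx3 : (1 : ℝ) ≤ ((x : ℝ) + 1) ^ 2 := by nlinarith
  have e : g12 X x a b c d - g12 X x a' b' c' d' =
      -(1 / 8) * (gp X a a - gp X a' a') + -(1 / 8) * (gp X b b - gp X b' b') +
      -(1 / 8) * (gp X c c - gp X c' c') + -(1 / 8) * (gp X d d - gp X d' d') +
      -(((x : ℝ) + 1) ^ 2 / 4) * (gp X c d - gp X c' d') + -((x : ℝ) ^ 2 / 4) * (gp X a b - gp X a' b') +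
      ((x : ℝ) ^ 2 / 4) * (gp X b c - gp X b' c') + (((x : ℝ) + 1) ^ 2 / 4) * (gp X a d - gp X a' d') +
      ((2 * (x : ℝ) + 1) ^ 2 / 4) * (gp X a c - gp X a' c') := by
    unfold g12
    ring
  have c1 : |(-(1 / 8) : ℝ)| ≤ (L : ℝ) ^ 2 := by
    rw [abs_neg, abs_of_nonneg (by positivity)]
    linarith
  have c2 : |((x : ℝ) + 1) ^ 2 / 4| ≤ (L : ℝ) ^ 2 := by
    rw [abs_of_nonneg (by positivity)]
    linarith
  have c3 : |(x : ℝ) ^ 2 / 4| ≤ (L : ℝ) ^ 2 := by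
    rw [abs_of_nonneg (by positivity)]
    linarith
  have c4 : |(2 * (x : ℝ) + 1) ^ 2 / 4| ≤ (L : ℝ) ^ 2 := by
    rw [abs_of_nonneg (by positivity)]
    nlinarith
  have t1 := tmb c1 (D _ _ _ _ ha ha)
  have t2 := tmb c1 (D _ _ _ _ hb hb)
  have t3 := tmb c1 (D _ _ _ _ hc hc)
  have t4 := tmb c1 (D _ _ _ _ hd hd)
  have t5 := tmb (c := -(((x : ℝ) + 1) ^ 2 / 4)) (c' := (L : ℝ) ^ 2) (by rw [abs_neg]; exact c2) (D _ _ _ _ hc hd)
  have t6 := tmb (c := -((x : ℝ) ^ 2 / 4)) (c' := (L : ℝ) ^ 2) (by rw [abs_neg]; exact c3) (D _ _ _ _ ha hb)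
  have t7 := tmb c3 (D _ _ _ _ hb hc)
  have t8 := tmb c2 (D _ _ _ _ ha hd)
  have t9 := tmb c4 (D _ _ _ _ ha hc)
  rw [e]
  rw [abs_le] at t1 t2 t3 t4 t5 t6 t7 t8 t9 ⊢
  constructor <;> linarith [t1.1, t1.2, t2.1, t2.2, t3.1, t3.2, t4.1, t4.2, t5.1, t5.2, t6.1, t6.2, t7.1,
    t7.2, t8.1, t8.2, t9.1, t9.2]

theorem g23_dif (X : Mt N) {M : ℝ} (Q : Mt N → Mt N → Prop)
    (D : ∀ p p' q q', Q p p' → Q q q' → |gp X p q - gp X p' q'| ≤ 64 * M) {x : ℕ} (hx : x < L)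
    {a b c d a' b' c' d' : Mt N} (h1 : Q (b + d) (b' + d')) (h2 : Q (b - d) (b' - d'))
    (h3 : Q (a - c + (b - d)) (a' - c' + (b' - d'))) :
    |g23 X x a b c d - g23 X x a' b' c' d'| ≤ 40 * (L : ℝ) ^ 2 * M := by
  obtain ⟨hx1, hx2⟩ := xL hx
  have h0 : (0 : ℝ) ≤ x := Nat.cast_nonneg x
  have hM : 0 ≤ 64 * M := (abs_nonneg _).trans (D _ _ _ _ h1 h1)
  have hM' : 0 ≤ M := by linarith
  have hLM : 0 ≤ (L : ℝ) ^ 2 * M := by positivity
  have e : g23 X x a b c d - g23 X x a' b' c' d' =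
      ((x : ℝ) ^ 2 / 4) * (gp X (b + d) (b + d) - gp X (b' + d') (b' + d')) +
      -((x : ℝ) ^ 2 / 4) * (gp X (b - d) (a - c + (b - d)) - gp X (b' - d') (a' - c' + (b' - d'))) := by
    unfold g23
    ring
  have c3 : |(x : ℝ) ^ 2 / 4| ≤ (L : ℝ) ^ 2 / 4 := by
    rw [abs_of_nonneg (by positivity)]
    nlinarith
  have t1 := tmb c3 (D _ _ _ _ h1 h1)
  have t2 := tmb (c := -((x : ℝ) ^ 2 / 4)) (c' := (L : ℝ) ^ 2 / 4) (by rw [abs_neg]; exact c3) (D _ _ _ _ h2 h3)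
  rw [e]
  rw [abs_le] at t1 t2 ⊢
  constructor <;> linarith [t1.1, t1.2, t2.1, t2.2]

theorem te3 (hEX : S_EX) (hSP : S_SP) (hLIE : S_LIE) (hAI : Pool.Agent.H586.AF.S_AI)
    (hQF : Pool.Agent.H586.AF.S_QF) (hHR : Pool.Agent.H586.AF.S_HR) : S_E3 := by
  intro N G _ _ hG n T hT X hXG
  obtain ⟨-, hLT⟩ := hLIE G hG
  obtain ⟨hTa, hLa, -, C1, hC1⟩ := hLT T hT
  have hX : Xᴴ = -X := hLa X hXG
  obtain ⟨C2, hC2⟩ := hEX hG X hX
  have hk : ∀ a b, kp X (T a) (T b) = -kp X (T b) (T a) := fun a b => kp_anti hX (hTa a) (hTa b)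
  obtain ⟨K0, hK0⟩ : ∃ K0 : ℝ, K0 = ∑ a, N * ‖T a‖ ^ 2 := ⟨_, rfl⟩
  have hK0n : 0 ≤ K0 := by
    rw [hK0]
    positivity
  obtain ⟨K, hK⟩ : ∃ K : ℝ, K = N * ‖X‖ + N * (2 * ‖X‖) ^ 2 := ⟨_, rfl⟩
  have hKn : 0 ≤ K := by
    rw [hK]
    positivity
  obtain ⟨E, hE⟩ : ∃ E : ℝ, E = K * |C1| * (1 + K0) := ⟨_, rfl⟩
  have hEn : 0 ≤ E := by
    rw [hE]
    positivity
  have hkB : ∀ p q : Mt N, |kL X p q| ≤ K * ‖p‖ * ‖q‖ := by
    intro p q
    refine (kL_le X p q).trans ?_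
    gcongr
    rw [hK]
    exact le_add_of_nonneg_right (by positivity)
  have hgB : ∀ p q : Mt N, |gL X p q| ≤ K * ‖p‖ * ‖q‖ := by
    intro p q
    refine (gL_le X p q).trans ?_
    gcongr
    rw [hK]
    exact le_add_of_nonneg_left (by positivity)
  have hhB : ∀ p q : Mt N, |hL X p q| ≤ K * ‖p‖ * ‖q‖ := by
    intro p q
    refine (hL_le X p q).trans ?_
    gcongr
    rw [hK]
    exact le_add_of_nonneg_left (by positivity)
  refine ⟨C2 + 100 * E, fun L hL2 => ?_⟩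
  obtain ⟨e1, e2, m1, m2, m3, hd1, hex⟩ := hC2 L hL2
  have hL6 : (0 : ℝ) ≤ (L : ℝ) ^ 6 := by positivity
  have hmon : C2 * (L : ℝ) ^ 6 ≤ (C2 + 100 * E) * (L : ℝ) ^ 6 := by
    have := mul_nonneg hEn hL6
    nlinarith
  refine ⟨e1, e2, m1, m2, m3, fun θ σ => ?_, fun σ => ?_⟩
  · obtain ⟨a1, a2, a3, a4, a5⟩ := hd1 θ σ
    exact ⟨a1, a2, a3.trans hmon, a4.trans hmon, a5.trans hmon⟩
  obtain ⟨h1, h2⟩ := hex σ
  obtain ⟨φ, hφ⟩ : ∃ φ : Fin n → IH L → ℝ, φ = fun a l => ip (T a) (wf σ l) := ⟨_, rfl⟩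
  obtain ⟨s, hs⟩ : ∃ s : ℝ, s = sz σ := ⟨_, rfl⟩
  have hsn : 0 ≤ s := by
    rw [hs]
    unfold sz
    positivity
  -- comparison of the fields
  have hcmp : ∀ l, Cmp K0 |C1| s (wf σ l) (VV T φ l) := by
    intro l
    have hw : ‖wf σ l‖ ≤ s := by
      rw [hs]
      exact Finset.single_le_sum (f := fun l => ‖mt (σ l) - 1‖) (fun _ _ => norm_nonneg _) (Finset.mem_univ l)
    refine ⟨hw, ?_, ?_⟩
    · unfold VV
      refine (norm_sum_le _ _).trans ?_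
      rw [hK0, Finset.sum_mul]
      refine Finset.sum_le_sum fun a _ => ?_
      rw [norm_smul, Real.norm_eq_abs, hφ]
      calc |ip (T a) (wf σ l)| * ‖T a‖ ≤ (N * ‖T a‖ * ‖wf σ l‖) * ‖T a‖ :=
            mul_le_mul_of_nonneg_right (ip_le _ _) (norm_nonneg _)
        _ = N * ‖T a‖ ^ 2 * ‖wf σ l‖ := by ring
        _ ≤ N * ‖T a‖ ^ 2 * s := by gcongr
    · have h3 := hC1 (σ l)
      have e : wf σ l - VV T φ l = mt (σ l) - 1 - ∑ a, ip (T a) (mt (σ l) - 1) • T a := by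
        rw [hφ]
        rfl
      rw [e]
      refine h3.trans ((mul_le_mul_of_nonneg_right (le_abs_self C1) (by positivity)).trans ?_)
      have hw' : ‖mt (σ l) - 1‖ ≤ s := hw
      gcongr
  have q0 : Cmp K0 |C1| s (0 : Mt N) 0 := Cmp.zero hsn hK0n (abs_nonneg _)
  have q1 := M1_ind (Cmp K0 |C1| s) q0 hcmp
  have q2 := M2_ind (Cmp K0 |C1| s) q0 hcmp
  have q3 := M3_ind (Cmp K0 |C1| s) q0 hcmp
  have hA1 : (0 : ℝ) ≤ |C1| := abs_nonneg _
  have Dk : ∀ p p' q q' : Mt N, Cmp K0 |C1| s p p' → Cmp K0 |C1| s q q' →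
      |kp X p q - kp X p' q'| ≤ E * s ^ 3 := by
    intro p p' q q' hp hq
    rw [hE]
    exact Cmp.dif (kL X) hKn hK0n hA1 hkB hp hq
  have Dg : ∀ p p' q q' : Mt N, Cmp K0 |C1| s p p' → Cmp K0 |C1| s q q' →
      |gp X p q - gp X p' q'| ≤ E * s ^ 3 := by
    intro p p' q q' hp hq
    rw [hE]
    exact Cmp.dif (gL X) hKn hK0n hA1 hgB hp hq
  have Dg4 : ∀ p p' q q' : Mt N, Cmp K0 |C1| (4 * s) p p' → Cmp K0 |C1| (4 * s) q q' →
      |gp X p q - gp X p' q'| ≤ 64 * (E * s ^ 3) := by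
    intro p p' q q' hp hq
    have := Cmp.dif (gL X) hKn hK0n hA1 hgB hp hq
    rw [← hE] at this
    calc |gp X p q - gp X p' q'| ≤ E * (4 * s) ^ 3 := this
      _ = _ := by ring
  have Dh4 : ∀ p p' q q' : Mt N, Cmp K0 |C1| (4 * s) p p' → Cmp K0 |C1| (4 * s) q q' →
      |hp X p q - hp X p' q'| ≤ 64 * (E * s ^ 3) := by
    intro p p' q q' hp' hq
    have := Cmp.dif (hL X) hKn hK0n hA1 hhB hp' hq
    rw [← hE] at this
    calc |hp X p q - hp X p' q'| ≤ E * (4 * s) ^ 3 := this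
      _ = _ := by ring
  have hM0 : 0 ≤ E * s ^ 3 := by positivity
  have hM1 : 0 ≤ 40 * (L : ℝ) ^ 2 * (E * s ^ 3) := by positivity
  -- the differences
  have d1 := s12_dif L (fun x y z h => k12 X x (M1 (wf σ) x y z h) (M2 (wf σ) (x + 1) y z h)
      (M1 (wf σ) x (y + 1) z h) (M2 (wf σ) x y z h))
    (fun x y z h => k12 X x (M1 (VV T φ) x y z h) (M2 (VV T φ) (x + 1) y z h)
      (M1 (VV T φ) x (y + 1) z h) (M2 (VV T φ) x y z h)) _ hM1
    (fun x y z h hx => k12_dif X _ Dk hx (q1 _ _ _ _) (q2 _ _ _ _) (q1 _ _ _ _) (q2 _ _ _ _))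
  have d2 := s23_dif L (fun x y z h => k23 X x (M2 (wf σ) x y z h) (M3 (wf σ) x (y + 1) z h)
      (M2 (wf σ) x y (z + 1) h) (M3 (wf σ) x y z h))
    (fun x y z h => k23 X x (M2 (VV T φ) x y z h) (M3 (VV T φ) x (y + 1) z h)
      (M2 (VV T φ) x y (z + 1) h) (M3 (VV T φ) x y z h)) _ hM1
    (fun x y z h hx => k23_dif X _ Dk hx (q2 _ _ _ _) (q3 _ _ _ _) (q2 _ _ _ _) (q3 _ _ _ _))
  have d3 := s12_dif L (fun x y z h => g12 X x (M1 (wf σ) x y z h) (M2 (wf σ) (x + 1) y z h)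
      (M1 (wf σ) x (y + 1) z h) (M2 (wf σ) x y z h))
    (fun x y z h => g12 X x (M1 (VV T φ) x y z h) (M2 (VV T φ) (x + 1) y z h)
      (M1 (VV T φ) x (y + 1) z h) (M2 (VV T φ) x y z h)) _ hM1
    (fun x y z h hx => g12_dif X _ Dg hx (q1 _ _ _ _) (q2 _ _ _ _) (q1 _ _ _ _) (q2 _ _ _ _))
  have d4 := s23_dif L (fun x y z h => g23 X x (M2 (wf σ) x y z h) (M3 (wf σ) x (y + 1) z h)
      (M2 (wf σ) x y (z + 1) h) (M3 (wf σ) x y z h))
    (fun x y z h => g23 X x (M2 (VV T φ) x y z h) (M3 (VV T φ) x (y + 1) z h)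
      (M2 (VV T φ) x y (z + 1) h) (M3 (VV T φ) x y z h)) _ hM1
    (fun x y z h hx => g23_dif X _ Dg4 hx
      (((q3 x (y + 1) z h).add hA1 (q3 x y z h)).mono hK0n hA1 (by linarith))
      (((q3 x (y + 1) z h).sub hA1 (q3 x y z h)).mono hK0n hA1 (by linarith))
      ((((q2 x y z h).sub hA1 (q2 x y (z + 1) h)).add hA1
        ((q3 x (y + 1) z h).sub hA1 (q3 x y z h))).mono hK0n hA1 (by linarith)))
  have d5 := s12_dif L (fun x y z h => hp X (c12 (wf σ) x y z h) (c12 (wf σ) x y z h))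
    (fun x y z h => hp X (c12 (VV T φ) x y z h) (c12 (VV T φ) x y z h)) (64 * (E * s ^ 3)) (by positivity)
    (fun x y z h hx => by
      have q4 : Cmp K0 |C1| (4 * s) (c12 (wf σ) x y z h) (c12 (VV T φ) x y z h) :=
        (((((q1 x y z h).add hA1 (q2 (x + 1) y z h)).sub hA1 (q1 x (y + 1) z h)).sub hA1
          (q2 x y z h))).mono hK0n hA1 (by linarith)
      exact Dh4 _ _ _ _ q4 q4)
  -- the identities
  have i1 : s12 L (fun x y z h => k12 X x (M1 (VV T φ) x y z h) (M2 (VV T φ) (x + 1) y z h)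
      (M1 (VV T φ) x (y + 1) z h) (M2 (VV T φ) x y z h)) +
      s23 L (fun x y z h => k23 X x (M2 (VV T φ) x y z h) (M3 (VV T φ) x (y + 1) z h)
      (M2 (VV T φ) x y (z + 1) h) (M3 (VV T φ) x y z h)) =
      ∑ x, ∑ y, ∑ a, ∑ b, Pool.Agent.H586.AF.mB L x y * kp X (T a) (T b) * ip (T a) (wf σ x) *
        ip (T b) (wf σ y) := by
    simp only [k12_VV hk, k23_VV hk]
    rw [s12_sum L (fun a b => 1 / 2 * kp X (T a) (T b)) (fun a b => W12 (φ a) (φ b)),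
      s23_sum L (fun a b => 1 / 2 * kp X (T a) (T b)) (fun a b => W23 (φ a) (φ b)), ← Finset.sum_add_distrib]
    simp only [← Finset.sum_add_distrib, ← mul_add, (sp hSP hQF hHR hL2 _ _).1]
    rw [← swap4 (Pool.Agent.H586.AF.mB L) (fun a b => kp X (T a) (T b)) (fun a l => ip (T a) (wf σ l)), hφ]
    exact Finset.sum_congr rfl fun a _ => Finset.sum_congr rfl fun b _ => by ring
  have i2 : s12 L (fun x y z h => g12 X x (M1 (VV T φ) x y z h) (M2 (VV T φ) (x + 1) y z h)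
      (M1 (VV T φ) x (y + 1) z h) (M2 (VV T φ) x y z h)) +
      s23 L (fun x y z h => g23 X x (M2 (VV T φ) x y z h) (M3 (VV T φ) x (y + 1) z h)
      (M2 (VV T φ) x y (z + 1) h) (M3 (VV T φ) x y z h)) =
      (1 / 2) * ∑ x, ∑ y, ∑ a, ∑ b, Pool.Agent.H586.AF.mC L x y * gp X (T a) (T b) * ip (T a) (wf σ x) *
        ip (T b) (wf σ y) := by
    simp only [g12_VV, g23_VV]
    rw [s12_sum L (fun a b => 1 / 2 * gp X (T a) (T b)) (fun a b => R12 (φ a) (φ b)),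
      s23_sum L (fun a b => 1 / 2 * gp X (T a) (T b)) (fun a b => R23 (φ a) (φ b)), ← Finset.sum_add_distrib]
    simp only [← Finset.sum_add_distrib, ← mul_add, (sp hSP hQF hHR hL2 _ _).2]
    rw [← swap4 (Pool.Agent.H586.AF.mC L) (fun a b => gp X (T a) (T b)) (fun a l => ip (T a) (wf σ l)), hφ,
      Finset.mul_sum]
    refine Finset.sum_congr rfl fun a _ => ?_
    rw [Finset.mul_sum]
    exact Finset.sum_congr rfl fun b _ => by ring
  have i3 : s12 L (fun x y z h => hp X (c12 (VV T φ) x y z h) (c12 (VV T φ) x y z h)) =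
      ∑ x, ∑ y, ∑ a, ∑ b, Pool.Agent.H586.AF.mR L x y * hp X (T a) (T b) * ip (T a) (wf σ x) *
        ip (T b) (wf σ y) := by
    simp only [hc_VV]
    rw [s12_sum L (fun a b => hp X (T a) (T b)) (fun a b x y z h =>
      Pool.Agent.H586.AF.c12 (φ a) x y z h * Pool.Agent.H586.AF.c12 (φ b) x y z h)]
    simp only [ai hAI hL2]
    rw [← swap4 (Pool.Agent.H586.AF.mR L) (fun a b => hp X (T a) (T b)) (fun a l => ip (T a) (wf σ l)), hφ]
  have h1' : |e1 0 σ - (s12 L (fun x y z h => k12 X x (M1 (wf σ) x y z h) (M2 (wf σ) (x + 1) y z h)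
      (M1 (wf σ) x (y + 1) z h) (M2 (wf σ) x y z h)) +
      s23 L (fun x y z h => k23 X x (M2 (wf σ) x y z h) (M3 (wf σ) x (y + 1) z h)
      (M2 (wf σ) x y (z + 1) h) (M3 (wf σ) x y z h)))| ≤ C2 * (L : ℝ) ^ 6 * s ^ 3 := by
    rw [hs]
    exact h1
  have h2' : |e2 0 σ - ip X X * (L : ℝ) ^ 3 * (L - 1) -
      (s12 L (fun x y z h => g12 X x (M1 (wf σ) x y z h) (M2 (wf σ) (x + 1) y z h)
      (M1 (wf σ) x (y + 1) z h) (M2 (wf σ) x y z h)) +
      s23 L (fun x y z h => g23 X x (M2 (wf σ) x y z h) (M3 (wf σ) x (y + 1) z h)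
      (M2 (wf σ) x y (z + 1) h) (M3 (wf σ) x y z h))) +
      (1 / 8) * s12 L (fun x y z h => hp X (c12 (wf σ) x y z h) (c12 (wf σ) x y z h))| ≤
      C2 * (L : ℝ) ^ 6 * s ^ 3 := by
    rw [hs]
    exact h2
  rw [← i1, ← hs]
  rw [← i2, ← i3]
  have hL1 : (1 : ℝ) ≤ L := by
    have : (2 : ℝ) ≤ L := by exact_mod_cast hL2
    linarith
  have r1 : (L : ℝ) ^ 4 * (40 * (L : ℝ) ^ 2 * (E * s ^ 3)) = 40 * (E * (L : ℝ) ^ 6 * s ^ 3) := by ring
  have r2 : (L : ℝ) ^ 4 * (64 * (E * s ^ 3)) ≤ 64 * (E * (L : ℝ) ^ 6 * s ^ 3) := by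
    have h4 : (L : ℝ) ^ 4 ≤ (L : ℝ) ^ 6 := pow_le_pow_right₀ hL1 (by norm_num)
    have := mul_le_mul_of_nonneg_right h4 hM0
    nlinarith
  have r3 : 0 ≤ E * (L : ℝ) ^ 6 * s ^ 3 := by positivity
  rw [r1] at d1 d2 d3 d4
  have d5' := d5.trans r2
  have r4 : (C2 + 100 * E) * (L : ℝ) ^ 6 * s ^ 3 = C2 * (L : ℝ) ^ 6 * s ^ 3 + 100 * (E * (L : ℝ) ^ 6 * s ^ 3) := by
    ring
  rw [r4]
  rw [abs_le] at d1 d2 d3 d4 d5' h1' h2'
  constructor
  · rw [abs_le]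
    constructor <;> linarith [d1.1, d1.2, d2.1, d2.2, h1'.1, h1'.2]
  · rw [abs_le]
    constructor <;> linarith [d3.1, d3.2, d4.1, d4.2, d5'.1, d5'.2, h2'.1, h2'.2]

end

end Pool.Agent.H593.AG
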